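import Pool.Agent.TH669.OL.PS

set_option autoImplicit false
set_option linter.unusedSectionVars false

/-!
Oliver groups satisfy the fixed point criterion.
-/

namespace Pool.Agent.TH669.OL

open Finset
open Pool.Agent.H98R2.Ev (NE Ch fixIn faces act Acyc ne_acyc lefschetz act_apply map_mul_perm
  map_one_perm act_iter chain_fixed)
open Pool.Agent.H119R2.Kp.K1 (eu eu_family alt_ssub)
open Pool.Agent.TH669.AD (Inv Crit)

variable {n : ℕ}

theorem inv_iff (Γ : Subgroup (Equiv.Perm (Fin n))) (S : Finset (Fin n)) :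
    Inv Γ S ↔ Γ ≤ stab S := Iff.rfl

theorem eu_full (Γ : Subgroup (Equiv.Perm (Fin n))) (T : Finset (Fin n))
    (D : Finset (Fin n) → Prop) (hT : T.Nonempty) (hinv : Inv Γ T)
    (hlt : ∀ S, S ⊂ T → Inv Γ S → D S) (hTn : ¬ D T) :
    eu (FixQ (faces T D) Γ) = 1 ∨ eu (FixQ (faces T D) Γ) = -1 := by
  classical
  let orb : Fin n → Finset (Fin n) := fun x => univ.filter (fun y => ∃ g ∈ Γ, g x = y)
  have horb : ∀ x y, y ∈ orb x ↔ ∃ g ∈ Γ, g x = y := by
    intro x y
    simp [orb]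
  have hself : ∀ x, x ∈ orb x := fun x => (horb x x).2 ⟨1, Γ.one_mem, rfl⟩
  have horb_eq : ∀ x y, y ∈ orb x → orb x = orb y := by
    intro x y hy
    obtain ⟨g, hg, rfl⟩ := (horb x y).1 hy
    ext z
    rw [horb, horb]
    constructor
    · rintro ⟨h, hh, rfl⟩
      exact ⟨h * g⁻¹, Γ.mul_mem hh (Γ.inv_mem hg), by simp⟩
    · rintro ⟨h, hh, rfl⟩
      exact ⟨h * g, Γ.mul_mem hh hg, rfl⟩
  let P : Finset (Finset (Fin n)) := T.image orb
  let e : P ≃ Fin P.card := P.equivFin
  let O : Fin P.card → Finset (Fin n) := fun j => (e.symm j).1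
  have hOx : ∀ j, ∃ x ∈ T, O j = orb x := by
    intro j
    have h := (e.symm j).2
    obtain ⟨x, hx, hx'⟩ := mem_image.1 h
    exact ⟨x, hx, hx'.symm⟩
  have hxO : ∀ x ∈ T, ∃ j, O j = orb x := by
    intro x hx
    refine ⟨e ⟨orb x, mem_image_of_mem _ hx⟩, ?_⟩
    simp [O]
  -- invariant sets are closed
  have hclosed : ∀ S : Finset (Fin n), Inv Γ S → ∀ x ∈ S, ∀ y ∈ orb x, y ∈ S := by
    intro S hS x hx y hy
    obtain ⟨g, hg, rfl⟩ := (horb x y).1 hy
    rw [← hS g hg]
    exact mem_map_of_mem _ hx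
  have horbinv : ∀ x, Inv Γ (orb x) := by
    intro x g hg
    ext y
    rw [mem_map, horb]
    constructor
    · rintro ⟨z, hz, rfl⟩
      obtain ⟨h, hh, rfl⟩ := (horb x z).1 hz
      exact ⟨g * h, Γ.mul_mem hg hh, rfl⟩
    · rintro ⟨h, hh, rfl⟩
      refine ⟨g⁻¹ (h x), ?_, by simp⟩
      rw [horb]
      exact ⟨g⁻¹ * h, Γ.mul_mem (Γ.inv_mem hg) hh, rfl⟩
  have hOinv : ∀ j, Inv Γ (O j) := by
    intro j
    obtain ⟨x, _, hx⟩ := hOx j
    rw [hx]
    exact horbinv x
  have hOT : ∀ j, O j ⊆ T := by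
    intro j
    obtain ⟨x, hxT, hx⟩ := hOx j
    rw [hx]
    intro y hy
    exact hclosed T hinv x hxT y hy
  have hOne : ∀ j, (O j).Nonempty := by
    intro j
    obtain ⟨x, _, hx⟩ := hOx j
    exact ⟨x, by rw [hx]; exact hself x⟩
  have hOdis : ∀ i j, i ≠ j → Disjoint (O i) (O j) := by
    intro i j hij
    rw [disjoint_left]
    intro z hzi hzj
    obtain ⟨x, _, hx⟩ := hOx i
    obtain ⟨y, _, hy⟩ := hOx j
    rw [hx] at hzi
    rw [hy] at hzj
    have : O i = O j := by
      rw [hx, hy, horb_eq x z hzi, horb_eq y z hzj]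
    have h2 : e.symm i = e.symm j := Subtype.ext this
    exact hij (e.symm.injective h2)
  have hOU : univ.biUnion O = T := by
    ext x
    rw [mem_biUnion]
    constructor
    · rintro ⟨j, _, hx⟩
      exact hOT j hx
    · intro hx
      obtain ⟨j, hj⟩ := hxO x hx
      exact ⟨j, mem_univ _, by rw [hj]; exact hself x⟩
  have hsubT : ∀ I : Finset (Fin P.card), I.biUnion O ⊆ T := by
    intro I
    rw [← hOU]
    exact biUnion_subset_biUnion_of_subset_left _ (subset_univ I)
  have hm : 0 < P.card := by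
    rw [card_pos]
    obtain ⟨x, hx⟩ := hT
    exact ⟨orb x, mem_image_of_mem _ hx⟩
  have huniv : (univ : Finset (Fin P.card)).Nonempty := ⟨⟨0, hm⟩, mem_univ _⟩
  have hφ : ∀ I J : Finset (Fin P.card), I.biUnion O ≤ J.biUnion O ↔ I ⊆ J := by
    intro I J
    constructor
    · intro h j hj
      obtain ⟨x, hx⟩ := hOne j
      have := h (mem_biUnion.2 ⟨j, hj, hx⟩)
      obtain ⟨j', hj', hx'⟩ := mem_biUnion.1 this
      by_cases e : j = j'
      · rwa [e]
      · exact absurd hx' (disjoint_left.1 (hOdis j j' e) hx)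
    · intro h
      exact biUnion_subset_biUnion_of_subset_left _ h
  have hUinv : ∀ I : Finset (Fin P.card), Inv Γ (I.biUnion O) := by
    intro I g hg
    ext x
    simp only [mem_map, mem_biUnion]
    constructor
    · rintro ⟨y, ⟨j, hj, hy⟩, rfl⟩
      refine ⟨j, hj, ?_⟩
      rw [← hOinv j g hg]
      exact mem_map_of_mem _ hy
    · rintro ⟨j, hj, hx⟩
      rw [← hOinv j g hg, mem_map] at hx
      obtain ⟨y, hy, hyx⟩ := hx
      exact ⟨y, ⟨j, hj, hy⟩, hyx⟩
  set K : Finset (Finset (Fin P.card)) := (univ : Finset (Fin P.card)).ssubsets with hK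
  have hKm : ∀ I, I ∈ K ↔ I ⊂ univ := fun I => mem_ssubsets
  have hDK : ∀ I ∈ K, D (I.biUnion O) := by
    intro I hI
    rw [hKm] at hI
    apply hlt _ _ (hUinv I)
    rw [Finset.ssubset_iff_subset_ne]
    refine ⟨hsubT I, ?_⟩
    intro h
    rw [← hOU] at h
    have := (hφ univ I).1 h.ge
    exact hI.2 this
  have hQ : FixQ (faces T D) Γ = (K.erase ∅).image (fun I => I.biUnion O) := by
    ext S
    rw [mem_FixQ, mem_image]
    have hmem : S ∈ faces T D ↔ S ⊆ T ∧ S.Nonempty ∧ D S := by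
      simp [faces]
    rw [hmem]
    constructor
    · rintro ⟨⟨h1, h2, h3⟩, h4⟩
      have hS : S = (univ.filter (fun j => O j ⊆ S)).biUnion O := by
        ext x
        rw [mem_biUnion]
        constructor
        · intro hx
          obtain ⟨j, hj⟩ := hxO x (h1 hx)
          refine ⟨j, ?_, by rw [hj]; exact hself x⟩
          rw [mem_filter]
          refine ⟨mem_univ _, ?_⟩
          rw [hj]
          intro y hy
          exact hclosed S h4 x hx y hy
        · rintro ⟨j, hj, hx⟩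
          exact (mem_filter.1 hj).2 hx
      refine ⟨univ.filter (fun j => O j ⊆ S), mem_erase.2 ⟨?_, ?_⟩, hS.symm⟩
      · intro h
        rw [h, biUnion_empty] at hS
        rw [hS] at h2
        exact absurd h2 (by simp)
      · rw [hKm, Finset.ssubset_iff_subset_ne]
        refine ⟨subset_univ _, ?_⟩
        intro h
        rw [h, hOU] at hS
        rw [hS] at h3
        exact hTn h3
    · rintro ⟨I, hI, rfl⟩
      obtain ⟨hI0, hIK⟩ := mem_erase.1 hI
      refine ⟨⟨hsubT I, ?_, hDK I hIK⟩, hUinv I⟩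
      obtain ⟨j, hj⟩ := nonempty_iff_ne_empty.2 hI0
      obtain ⟨x, hx⟩ := hOne j
      exact ⟨x, mem_biUnion.2 ⟨j, hj, hx⟩⟩
  have hE := eu_family (fun I : Finset (Fin P.card) => I.biUnion O) hφ K.card K rfl
    (empty_mem_ssubsets huniv) (by
      intro I hI J hJ
      rw [hKm] at hI ⊢
      exact lt_of_le_of_lt hJ hI)
  rw [← hQ, alt_ssub _ huniv] at hE
  rw [hE]
  rcases neg_one_pow_eq_or ℤ (univ : Finset (Fin P.card)).card with h | h
  · right
    rw [h]
  · left
    rw [h]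
    norm_num

/-- **Oliver groups satisfy the fixed point criterion.** `P` is a `p`-group, `c` normalizes `P`,
`S` is a `q`-group which normalizes `⟨P, c⟩`. -/
theorem crit_oliver (p q : ℕ) [Fact p.Prime] [Fact q.Prime]
    (P S : Subgroup (Equiv.Perm (Fin n))) (c : Equiv.Perm (Fin n)) (hP : IsPGroup p P)
    (hS : IsPGroup q S) (hc : Nz P c) (hSn : ∀ s ∈ S, Nz (P ⊔ Subgroup.zpowers c) s) :
    Crit (P ⊔ Subgroup.zpowers c ⊔ S) := by
  classical
  intro T D hT hinv hdown hD hlt hTn hne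
  have h0 : D ∅ := by
    apply hlt ∅
    · rw [Finset.ssubset_iff_subset_ne]
      exact ⟨empty_subset _, fun h => hT.ne_empty h.symm⟩
    · intro g _
      exact map_empty _
  have hmem : ∀ S : Finset (Fin n), S ∈ faces T D ↔ S ⊆ T ∧ S.Nonempty ∧ D S := by
    intro S
    simp [faces]
  have hA : Acyc (ZMod p) (faces T D) := by
    rcases ne_acyc (F := ZMod p) T D hdown hne with h | h
    · exact absurd h0 (h ∅ (empty_subset _))
    · exact h
  have hΓ : ∀ g ∈ P ⊔ Subgroup.zpowers c ⊔ S, ∀ A ∈ faces T D, A.map g.toEmbedding ∈ faces T D := by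
    intro g hg A hA
    rw [hmem] at hA ⊢
    obtain ⟨h1, h2, h3⟩ := hA
    refine ⟨?_, map_nonempty.2 h2, hD g hg A h1 h3⟩
    rw [← hinv g hg]
    exact map_subset_map.2 h1
  have hPle : P ≤ P ⊔ Subgroup.zpowers c ⊔ S := le_sup_left.trans le_sup_left
  have hcle : Subgroup.zpowers c ≤ P ⊔ Subgroup.zpowers c ⊔ S := le_sup_right.trans le_sup_left
  have h1 := psmith p P hP (faces T D) hA (fun g hg => hΓ g (hPle hg))
  have hL := lefschetz p (FixQ (faces T D) P) h1 (act c)
    (FixQ_inv _ P c hc (hΓ c (hcle (Subgroup.mem_zpowers c))))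
  have hE : eu (FixQ (faces T D) (P ⊔ Subgroup.zpowers c)) = 0 := by
    rw [FixQ_sup, FixQ_zpowers]
    exact hL
  have h2 := qcount q S hS (FixQ (faces T D) (P ⊔ Subgroup.zpowers c))
    (fun g hg => FixQ_inv _ _ g (hSn g hg) (hΓ g (le_sup_right (a := P ⊔ Subgroup.zpowers c) hg)))
  rw [hE, ← FixQ_sup, zero_sub, dvd_neg] at h2
  have hq : (1 : ℤ) < q := by exact_mod_cast (Fact.out : q.Prime).one_lt
  rcases eu_full (P ⊔ Subgroup.zpowers c ⊔ S) T D hT hinv hlt hTn with h | h
  · rw [h] at h2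
    have := Int.le_of_dvd one_pos h2
    omega
  · rw [h, dvd_neg] at h2
    have := Int.le_of_dvd one_pos h2
    omega

end Pool.Agent.TH669.OL
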