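import Mathlib
import Pool.Agent.H98R2.Ev.T5

set_option autoImplicit false
set_option linter.unusedSectionVars false

/-!
Smith theory for an order automorphism whose `p`-th power is the identity on the subposet.
-/

namespace Pool.Agent.TH669.OL

open Finset
open Pool.Agent.H98R2.Ev

universe u

section Transfer

variable {X Y : Type u} [DecidableEq X] [PartialOrder X] [Fintype X]
  [DecidableEq Y] [PartialOrder Y] [Fintype Y] {F : Type} [CommRing F]

theorem sg_emb (e : Y ↪o X) (y : Y) (τ : Finset Y) : sg (e y) (τ.map e.toEmbedding) = sg y τ := by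
  classical
  unfold sg
  have h : (τ.map e.toEmbedding).filter (fun z => z < e y) =
      (τ.filter (fun z => z < y)).map e.toEmbedding := by
    ext x
    simp only [mem_filter, mem_map]
    constructor
    · rintro ⟨⟨z, hz, rfl⟩, hlt⟩
      exact ⟨z, ⟨hz, e.lt_iff_lt.mp hlt⟩, rfl⟩
    · rintro ⟨z, ⟨hz, hlt⟩, rfl⟩
      exact ⟨⟨z, hz, rfl⟩, e.lt_iff_lt.mpr hlt⟩
  have h2 : ((τ.map e.toEmbedding).filter (fun z => z < e y)).card =
      (τ.filter (fun z => z < y)).card := by
    rw [h, card_map]
  convert congrArg (fun n : ℕ => (-1 : ℤ) ^ n) h2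

/-- pull back of cochains -/
def pull (e : Y ↪o X) (c : Finset X → F) : Finset Y → F := fun σ => c (σ.map e.toEmbedding)

open Classical in
/-- push forward of cochains -/
noncomputable def push (e : Y ↪o X) (d : Finset Y → F) : Finset X → F :=
  fun σ => if h : ∃ τ : Finset Y, τ.map e.toEmbedding = σ then d h.choose else 0

theorem push_map (e : Y ↪o X) (d : Finset Y → F) (τ : Finset Y) :
    push e d (τ.map e.toEmbedding) = d τ := by
  classical
  unfold push
  have h : ∃ τ' : Finset Y, τ'.map e.toEmbedding = τ.map e.toEmbedding := ⟨τ, rfl⟩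
  rw [dif_pos h]
  congr 1
  exact map_injective _ h.choose_spec

theorem push_zero (e : Y ↪o X) (d : Finset Y → F) (σ : Finset X)
    (h : ¬ ∃ τ : Finset Y, τ.map e.toEmbedding = σ) : push e d σ = 0 := by
  classical
  unfold push
  rw [dif_neg h]

theorem exists_map_of_subset (e : Y ↪o X) (Q : Finset Y) (σ : Finset X)
    (h : σ ⊆ Q.map e.toEmbedding) : ∃ τ : Finset Y, τ.map e.toEmbedding = σ := by
  classical
  refine ⟨Q.filter (fun y => e y ∈ σ), ?_⟩
  ext x
  simp only [mem_map, mem_filter]
  constructor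
  · rintro ⟨y, ⟨_, hy⟩, rfl⟩
    exact hy
  · intro hx
    obtain ⟨y, hy, rfl⟩ := mem_map.1 (h hx)
    exact ⟨y, ⟨hy, hx⟩, rfl⟩

theorem bd_pull (e : Y ↪o X) (Q : Finset Y) (c : Finset X → F)
    (hc : Supp (Q.map e.toEmbedding) c) (τ : Finset Y) :
    bd F (pull e c) τ = bd F c (τ.map e.toEmbedding) := by
  classical
  unfold bd pull
  have h1 : ∑ x ∈ univ \ τ.map e.toEmbedding, ((sg x (τ.map e.toEmbedding) : ℤ) : F) *
      c (insert x (τ.map e.toEmbedding)) =
      ∑ x ∈ (univ \ τ).map e.toEmbedding, ((sg x (τ.map e.toEmbedding) : ℤ) : F) *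
      c (insert x (τ.map e.toEmbedding)) := by
    symm
    apply sum_subset
    · intro x hx
      obtain ⟨y, hy, rfl⟩ := mem_map.1 hx
      rw [mem_sdiff] at hy ⊢
      refine ⟨mem_univ _, fun h => hy.2 ?_⟩
      obtain ⟨z, hz, hzy⟩ := mem_map.1 h
      rwa [← e.toEmbedding.injective hzy]
    · intro x hx hx'
      have : c (insert x (τ.map e.toEmbedding)) = 0 := by
        by_contra hne
        obtain ⟨h2, _⟩ := hc _ hne
        obtain ⟨y, _, hy⟩ := mem_map.1 (h2 (mem_insert_self x _))
        apply hx'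
        rw [← hy]
        apply mem_map_of_mem
        rw [mem_sdiff] at hx ⊢
        refine ⟨mem_univ _, fun h => hx.2 ?_⟩
        rw [← hy]
        exact mem_map_of_mem _ h
      rw [this, mul_zero]
  rw [h1, sum_map]
  refine sum_congr rfl fun y _ => ?_
  have h2 : (insert y τ).map e.toEmbedding = insert (e.toEmbedding y) (τ.map e.toEmbedding) :=
    map_insert _ _ _
  rw [h2]
  congr 2
  exact (sg_emb e y τ).symm

theorem ch_map (e : Y ↪o X) (Q τ : Finset Y) :
    Ch (Q.map e.toEmbedding) (τ.map e.toEmbedding) ↔ Ch Q τ := by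
  unfold Ch
  rw [map_subset_map]
  refine and_congr_right fun _ => ?_
  constructor
  · intro h a ha b hb hab
    have h2 := h (mem_coe.2 (mem_map_of_mem e.toEmbedding (mem_coe.1 ha)))
      (mem_coe.2 (mem_map_of_mem e.toEmbedding (mem_coe.1 hb)))
      (fun h => hab (e.toEmbedding.injective h))
    exact h2.imp e.le_iff_le.1 e.le_iff_le.1
  · intro h a ha b hb hab
    obtain ⟨a', ha', rfl⟩ := mem_map.1 (mem_coe.1 ha)
    obtain ⟨b', hb', rfl⟩ := mem_map.1 (mem_coe.1 hb)
    have h2 := h (mem_coe.2 ha') (mem_coe.2 hb') (fun h => hab (congrArg _ h))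
    exact h2.imp e.le_iff_le.2 e.le_iff_le.2

theorem acyc_map (e : Y ↪o X) (Q : Finset Y) (hQ : Acyc F Q) : Acyc F (Q.map e.toEmbedding) := by
  classical
  intro c hc hb
  have hs : Supp Q (pull e c) := by
    intro σ hσ
    exact (ch_map e Q σ).1 (hc _ hσ)
  obtain ⟨b, hb1, hb2⟩ := hQ (pull e c) hs (by
    funext τ
    rw [bd_pull e Q c hc, hb]
    rfl)
  have hps : Supp (Q.map e.toEmbedding) (push e b) := by
    intro σ hσ
    by_cases h : ∃ τ : Finset Y, τ.map e.toEmbedding = σ
    · obtain ⟨τ, rfl⟩ := h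
      rw [push_map] at hσ
      exact (ch_map e Q τ).2 (hb1 _ hσ)
    · exact absurd (push_zero e b σ h) hσ
  refine ⟨push e b, hps, ?_⟩
  funext σ
  by_cases h : ∃ τ : Finset Y, τ.map e.toEmbedding = σ
  · obtain ⟨τ, rfl⟩ := h
    rw [← bd_pull e Q _ hps]
    have : pull e (push e b) = b := by
      funext τ'
      exact push_map e b τ'
    rw [this, hb2]
    rfl
  · have h0 : c σ = 0 := by
      by_contra hne
      exact h (exists_map_of_subset e Q σ (hc σ hne).1)
    rw [h0]
    unfold bd
    apply sum_eq_zero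
    intro x _
    rw [push_zero, mul_zero]
    rintro ⟨τ, hτ⟩
    apply h
    refine exists_map_of_subset e univ σ ?_
    intro z hz
    have : z ∈ τ.map e.toEmbedding := by
      rw [hτ]
      exact mem_insert_of_mem hz
    obtain ⟨y, _, rfl⟩ := mem_map.1 this
    exact mem_map_of_mem _ (mem_univ y)

theorem acyc_of_map (e : Y ↪o X) (Q : Finset Y) (hQ : Acyc F (Q.map e.toEmbedding)) :
    Acyc F Q := by
  classical
  intro d hd hb
  have hps : Supp (Q.map e.toEmbedding) (push e d) := by
    intro σ hσ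
    by_cases h : ∃ τ : Finset Y, τ.map e.toEmbedding = σ
    · obtain ⟨τ, rfl⟩ := h
      rw [push_map] at hσ
      exact (ch_map e Q τ).2 (hd _ hσ)
    · exact absurd (push_zero e d σ h) hσ
  have hpp : pull e (push e d) = d := by
    funext τ'
    exact push_map e d τ'
  obtain ⟨b, hb1, hb2⟩ := hQ (push e d) hps (by
    funext σ
    by_cases h : ∃ τ : Finset Y, τ.map e.toEmbedding = σ
    · obtain ⟨τ, rfl⟩ := h
      rw [← bd_pull e Q _ hps, hpp, hb]
      rfl
    · unfold bd
      refine sum_eq_zero fun x _ => ?_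
      rw [push_zero, mul_zero]
      rintro ⟨τ, hτ⟩
      apply h
      refine exists_map_of_subset e univ σ ?_
      intro z hz
      have : z ∈ τ.map e.toEmbedding := by
        rw [hτ]
        exact mem_insert_of_mem hz
      obtain ⟨y, _, rfl⟩ := mem_map.1 this
      exact mem_map_of_mem _ (mem_univ y))
  refine ⟨pull e b, fun σ hσ => (ch_map e Q σ).1 (hb1 _ hσ), ?_⟩
  funext τ
  rw [bd_pull e Q b hb1, hb2]
  exact push_map e d τ

end Transfer

section Local

variable {X : Type u} [DecidableEq X] [PartialOrder X] [Fintype X]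

/-- **Local Smith theory**: the `p`-th power of `g` is the identity on `Q`. -/
theorem smith_local (p : ℕ) [Fact p.Prime] (Q : Finset X) (hQ : Acyc (ZMod p) Q) (g : X ≃o X)
    (hg : ∀ x ∈ Q, g x ∈ Q) (hp : ∀ x ∈ Q, g^[p] x = x) : Acyc (ZMod p) (fixIn Q g) := by
  classical
  let e : {x // x ∈ Q} ↪o X := OrderEmbedding.subtype (fun x => x ∈ Q)
  have he : ∀ y : {x // x ∈ Q}, e y = y.1 := fun y => rfl
  have hmap : (univ : Finset {x // x ∈ Q}).map e.toEmbedding = Q := by
    ext x
    simp only [mem_map, mem_univ, true_and]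
    constructor
    · rintro ⟨y, rfl⟩
      exact y.2
    · intro hx
      exact ⟨⟨x, hx⟩, rfl⟩
  have h1 : Acyc (ZMod p) (univ : Finset {x // x ∈ Q}) := by
    apply acyc_of_map e
    rwa [hmap]
  let f : {x // x ∈ Q} → {x // x ∈ Q} := fun y => ⟨g y.1, hg y.1 y.2⟩
  have hf : Function.Injective f := by
    intro a b hab
    apply Subtype.ext
    exact g.injective (congrArg Subtype.val hab)
  let g' : {x // x ∈ Q} ≃o {x // x ∈ Q} :=
    { toEquiv := Equiv.ofBijective f (Finite.injective_iff_bijective.1 hf)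
      map_rel_iff' := by
        intro a b
        change g a.1 ≤ g b.1 ↔ a ≤ b
        rw [g.le_iff_le]
        rfl }
  have hg' : ∀ y, (g' y).1 = g y.1 := fun y => rfl
  have hit : ∀ (k : ℕ) (y : {x // x ∈ Q}), (g'^[k] y).1 = g^[k] y.1 := by
    intro k
    induction k with
    | zero => intro y; rfl
    | succ k ih =>
      intro y
      rw [Function.iterate_succ_apply', Function.iterate_succ_apply', hg', ih]
  have h2 := smith p (univ : Finset {x // x ∈ Q}) h1 g' (fun _ _ => mem_univ _) (by
    intro y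
    apply Subtype.ext
    rw [hit]
    exact hp y.1 y.2)
  have h3 := acyc_map e _ h2
  have h4 : (fixIn (univ : Finset {x // x ∈ Q}) g').map e.toEmbedding = fixIn Q g := by
    ext x
    simp only [fixIn, mem_map, mem_filter, mem_univ, true_and]
    constructor
    · rintro ⟨y, hy, rfl⟩
      exact ⟨y.2, by
        have := congrArg Subtype.val hy
        exact this⟩
    · rintro ⟨hx, hgx⟩
      exact ⟨⟨x, hx⟩, Subtype.ext hgx, rfl⟩
  rwa [h4] at h3

end Local

end Pool.Agent.TH669.OL
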