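import Pool.Agent.TH669.OL.Norm

set_option autoImplicit false
set_option linter.unusedSectionVars false

/-!
Nilpotent transitive groups.
-/

namespace Pool.Agent.TH669.OL

open Finset
open Pool.Agent.H119R2.Kp (Dec)
open Pool.Agent.TH669.AD (Inv Crit FS FS_dec main)

section Abstract

variable {G : Type} [Group G] [Finite G]

/-- a nontrivial normal subgroup of a nilpotent group meets the center -/
theorem meet_center [Group.IsNilpotent G] (N : Subgroup G) [hN : N.Normal] (hne : N ≠ ⊥) :
    N ⊓ Subgroup.center G ≠ ⊥ := by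
  classical
  obtain ⟨s, hs0, hss⟩ : ∃ s : ℕ → Subgroup G, s 0 = N ∧
      ∀ i, s (i + 1) = ⁅s i, (⊤ : Subgroup G)⁆ :=
    ⟨fun i => Nat.rec N (fun _ M => ⁅M, (⊤ : Subgroup G)⁆) i, rfl, fun i => rfl⟩
  have hnormal : ∀ i, (s i).Normal := by
    intro i
    induction i with
    | zero => rw [hs0]; exact hN
    | succ i ih =>
      have h1 : (s i).Normal := ih
      have h2 : (⁅s i, (⊤ : Subgroup G)⁆).Normal := Subgroup.commutator_normal (s i) ⊤
      rw [hss i]
      exact h2
  have hle : ∀ i, s i ≤ Subgroup.lowerCentralSeries (⊤ : Subgroup G) i := by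
    intro i
    induction i with
    | zero => rw [hs0]; exact le_top
    | succ i ih =>
      rw [hss, Subgroup.lowerCentralSeries_succ]
      exact Subgroup.commutator_mono ih le_rfl
  have hleN : ∀ i, s i ≤ N := by
    intro i
    induction i with
    | zero => rw [hs0]
    | succ i ih =>
      rw [hss]
      have := hnormal i
      exact (Subgroup.commutator_le_left _ _).trans ih
  have hex : ∃ i, s i = ⊥ := by
    obtain ⟨m, hm⟩ := Subgroup.nilpotent_iff_lowerCentralSeries.1 (inferInstance : Group.IsNilpotent G)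
    exact ⟨m, le_bot_iff.1 ((hle m).trans hm.le)⟩
  obtain ⟨i, hi1, hi2⟩ : ∃ i, s i ≠ ⊥ ∧ s (i + 1) = ⊥ := by
    by_contra hcon
    push Not at hcon
    obtain ⟨m, hm⟩ := hex
    have : ∀ i, s i ≠ ⊥ := by
      intro i
      induction i with
      | zero => rwa [hs0]
      | succ i ih => exact hcon i ih
    exact this m hm
  rw [hss, Subgroup.commutator_eq_bot_iff_le_centralizer] at hi2
  rw [Subgroup.coe_top, Subgroup.centralizer_univ] at hi2
  intro h
  exact hi1 (le_bot_iff.1 ((le_inf (hleN i) hi2).trans h.le))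

theorem prime_dvd_exponent [Group.IsNilpotent G] (ℓ : ℕ) [Fact ℓ.Prime] (hℓ : ℓ ∣ Nat.card G) :
    ℓ ∣ Monoid.exponent (Subgroup.center G) := by
  classical
  obtain ⟨L⟩ : Nonempty (Sylow ℓ G) := inferInstance
  have hL : (L : Subgroup G).Normal :=
    (Group.isNilpotent_of_finite_tfae (G := G)).out 0 3 rfl rfl |>.mp inferInstance ℓ ‹_› L
  have hne : (L : Subgroup G) ≠ ⊥ := by
    intro h
    have h1 := L.not_dvd_index
    rw [h, Subgroup.index_bot] at h1
    exact h1 hℓ
  have h2 := meet_center (L : Subgroup G) hne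
  obtain ⟨x, hx, hx1⟩ := (Subgroup.bot_or_exists_ne_one _).resolve_left h2
  obtain ⟨hxL, hxZ⟩ := Subgroup.mem_inf.1 hx
  obtain ⟨k, hk⟩ := (IsPGroup.iff_orderOf.1 L.isPGroup') ⟨x, hxL⟩
  rw [Subgroup.orderOf_mk] at hk
  have hk0 : k ≠ 0 := by
    rintro rfl
    rw [pow_zero, orderOf_eq_one_iff] at hk
    exact hx1 hk
  have h3 : orderOf (⟨x, hxZ⟩ : Subgroup.center G) ∣ Monoid.exponent (Subgroup.center G) :=
    Monoid.order_dvd_exponent _
  rw [Subgroup.orderOf_mk, hk] at h3
  exact (dvd_pow_self ℓ hk0).trans h3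

/-- the orbits of a Sylow subgroup of a transitive group -/
theorem sylow_orbit {X : Type} [MulAction G X] [MulAction.IsPretransitive G X] (p : ℕ)
    [Fact p.Prime] (P : Sylow p G) (d : ℕ) (hd : p ^ d ∣ Nat.card X) (x : X) :
    p ^ d ∣ Nat.card (MulAction.orbit P x) := by
  have h1 : (MulAction.stabilizer G x).index = Nat.card X :=
    MulAction.index_stabilizer_of_transitive G x
  set K := MulAction.stabilizer G x ⊓ (P : Subgroup G) with hK
  have h2 : K.relIndex P * (P : Subgroup G).index = K.index :=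
    Subgroup.relIndex_mul_index inf_le_right
  have h3 : (MulAction.stabilizer G x).index ∣ K.index := Subgroup.index_dvd_of_le inf_le_left
  have h4 : p ^ d ∣ K.relIndex P * (P : Subgroup G).index := by
    rw [h2]
    rw [h1] at h3
    exact hd.trans h3
  have hcop : Nat.Coprime (p ^ d) (P : Subgroup G).index :=
    Nat.Coprime.pow_left d (((Fact.out : p.Prime).coprime_iff_not_dvd).2 P.not_dvd_index)
  have h5 : p ^ d ∣ K.relIndex P := hcop.dvd_of_dvd_mul_right h4
  have h6 : K.relIndex P = Nat.card (MulAction.orbit P x) := by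
    rw [hK, Subgroup.inf_relIndex_right, Nat.card_coe_set_eq, ← MulAction.index_stabilizer]
    rfl
  rwa [← h6]

end Abstract

variable {n : ℕ}

theorem dvd_card_of_inv (M : Subgroup (Equiv.Perm (Fin n))) (d : ℕ)
    (hd : ∀ x : Fin n, d ∣ Nat.card (MulAction.orbit M x)) :
    ∀ (m : ℕ) (S : Finset (Fin n)), S.card = m → Inv M S → d ∣ S.card := by
  classical
  intro m
  induction m using Nat.strong_induction_on with
  | _ m ih =>
    intro S hm hS
    rcases S.eq_empty_or_nonempty with h | ⟨x, hx⟩
    · rw [h]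
      simp
    · let O : Finset (Fin n) := univ.filter (fun y => ∃ g ∈ M, g x = y)
      have hO : ∀ y, y ∈ O ↔ ∃ g ∈ M, g x = y := by
        intro y
        simp [O]
      have hOS : O ⊆ S := by
        intro y hy
        obtain ⟨g, hg, rfl⟩ := (hO y).1 hy
        rw [← hS g hg]
        exact mem_map_of_mem _ hx
      have hOc : O.card = Nat.card (MulAction.orbit M x) := by
        rw [← Fintype.card_coe, ← Nat.card_eq_fintype_card]
        apply Nat.card_congr
        refine ⟨fun z => ⟨z.1, ?_⟩, fun z => ⟨z.1, ?_⟩, fun z => rfl, fun z => rfl⟩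
        · obtain ⟨g, hg, h⟩ := (hO _).1 z.2
          exact ⟨⟨g, hg⟩, h⟩
        · obtain ⟨g, h⟩ := z.2
          exact (hO _).2 ⟨g.1, g.2, h⟩
      have hx' : x ∈ O := (hO x).2 ⟨1, M.one_mem, rfl⟩
      have hsd : (S \ O).card < m := by
        rw [← hm]
        exact card_lt_card (by
          rw [Finset.ssubset_iff_subset_ne]
          refine ⟨sdiff_subset, ?_⟩
          intro h
          rw [← h] at hx
          exact (mem_sdiff.1 hx).2 hx')
      have hOinv : Inv M O := by
        intro g hg
        ext y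
        rw [mem_map, hO]
        constructor
        · rintro ⟨z, hz, rfl⟩
          obtain ⟨h, hh, rfl⟩ := (hO z).1 hz
          exact ⟨g * h, M.mul_mem hg hh, rfl⟩
        · rintro ⟨h, hh, rfl⟩
          refine ⟨g⁻¹ (h x), ?_, by simp⟩
          rw [hO]
          exact ⟨g⁻¹ * h, M.mul_mem (M.inv_mem hg) hh, rfl⟩
      have h1 := ih _ hsd (S \ O) rfl (by
        intro g hg
        rw [Finset.map_sdiff, hS g hg, hOinv g hg])
      have h2 : S.card = (S \ O).card + O.card := (card_sdiff_add_card_eq_card hOS).symm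
      rw [h2, hOc]
      exact dvd_add h1 (hd x)

end Pool.Agent.TH669.OL
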