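import Pool.Agent.TH669.OL.Nil

set_option autoImplicit false
set_option linter.unusedSectionVars false

/-!
Nilpotent transitive groups: the bound.
-/

namespace Pool.Agent.TH669.OL

open Finset
open Pool.Agent.H119R2.Kp (Dec)
open Pool.Agent.TH669.AD (Inv Crit FS FS_dec main)

variable {n : ℕ}

theorem exists_order_center (G : Type) [Group G] [Finite G] :
    ∃ z : Subgroup.center G, orderOf z = Monoid.exponent (Subgroup.center G) := by
  let _i : CommGroup (Subgroup.center G) :=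
    { (inferInstance : Group (Subgroup.center G)) with
      mul_comm := fun a b => Subtype.ext ((Subgroup.mem_center_iff.1 b.2) a) }
  exact Monoid.exists_orderOf_eq_exponent Monoid.ExponentExists.of_finite

theorem semireg (G : Subgroup (Equiv.Perm (Fin n))) (htr : ∀ i j : Fin n, ∃ σ ∈ G, σ i = j)
    (z : Equiv.Perm (Fin n)) (hz : ∀ σ ∈ G, z * σ = σ * z) (x : Fin n) :
    Nat.card (MulAction.orbit (Subgroup.zpowers z) x) = orderOf z := by
  have hst : MulAction.stabilizer (Subgroup.zpowers z) x = ⊥ := by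
    rw [eq_bot_iff]
    intro g hg
    rw [Subgroup.mem_bot]
    apply Subtype.ext
    have hgx : (g : Equiv.Perm (Fin n)) x = x := hg
    obtain ⟨i, hi⟩ := g.2
    have hcomm : ∀ σ ∈ G, (g : Equiv.Perm (Fin n)) * σ = σ * g := by
      intro σ hσ
      rw [← hi]
      have : Commute z σ := hz σ hσ
      exact (this.zpow_left i)
    apply Equiv.ext
    intro y
    obtain ⟨σ, hσ, rfl⟩ := htr x y
    have h1 := congrArg (fun h : Equiv.Perm (Fin n) => h x) (hcomm σ hσ)
    simp only [Equiv.Perm.mul_apply] at h1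
    rw [hgx] at h1
    exact h1
  rw [Nat.card_coe_set_eq, ← MulAction.index_stabilizer, hst, Subgroup.index_bot,
    Nat.card_zpowers]

theorem nil_bound {k : ℕ} (G : Subgroup (Equiv.Perm (Fin n)))
    (hnil : Group.IsNilpotent G) (htr : ∀ i j : Fin n, ∃ σ ∈ G, σ i = j)
    (f : (Fin n → Bool) → Bool) (hf : Monotone f) (hne : ∃ x y, f x ≠ f y)
    (hG : ∀ σ ∈ G, ∀ x : Fin n → Bool, f (x ∘ σ) = f x) (hk : Dec k (FS f))
    (p q : ℕ) (hp : p.Prime) (hq : q.Prime) (a b : ℕ) (ha : p ^ a ∣ n) (hb : q ^ b ∣ n) :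
    n * Nat.lcm (Nat.lcm (p ^ a) (q ^ b)) (Monoid.exponent (Subgroup.center G)) ≤ k ^ 2 := by
  classical
  have : Fact p.Prime := ⟨hp⟩
  have : Fact q.Prime := ⟨hq⟩
  have htr' : MulAction.IsPretransitive G (Fin n) := ⟨fun i j => by
    obtain ⟨σ, hσ, h⟩ := htr i j
    exact ⟨⟨σ, hσ⟩, h⟩⟩
  obtain ⟨P⟩ : Nonempty (Sylow p G) := inferInstance
  obtain ⟨Q⟩ : Nonempty (Sylow q G) := inferInstance
  have hPn : (P : Subgroup G).Normal :=
    (Group.isNilpotent_of_finite_tfae (G := G)).out 0 3 rfl rfl |>.mp inferInstance p ‹_› P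
  have hQn : (Q : Subgroup G).Normal :=
    (Group.isNilpotent_of_finite_tfae (G := G)).out 0 3 rfl rfl |>.mp inferInstance q ‹_› Q
  obtain ⟨z, hz⟩ := exists_order_center G
  have hzc : ∀ g : G, (z : G) * g = g * z := fun g => ((Subgroup.mem_center_iff.1 z.2) g).symm
  have hZn : (Subgroup.zpowers (z : G)).Normal := by
    constructor
    rintro m ⟨i, rfl⟩ g
    have h1 : Commute ((z : G) ^ i) g := (show Commute (z : G) g from hzc g).zpow_left i
    have h2 : g * (z : G) ^ i * g⁻¹ = (z : G) ^ i := by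
      rw [← h1.eq]
      group
    refine ⟨i, ?_⟩
    exact h2.symm
  set φ := G.subtype with hφ
  set Γ₀ : Subgroup G := (P : Subgroup G) ⊔ Subgroup.zpowers (z : G) ⊔ (Q : Subgroup G) with hΓ₀
  have hΓn : Γ₀.Normal := inferInstance
  set z' : Equiv.Perm (Fin n) := ((z : G) : Equiv.Perm (Fin n)) with hz'
  have hzmap : (Subgroup.zpowers (z : G)).map φ = Subgroup.zpowers z' :=
    MonoidHom.map_zpowers φ (z : G)
  have hΓ : Γ₀.map φ = (P : Subgroup G).map φ ⊔ Subgroup.zpowers z' ⊔ (Q : Subgroup G).map φ := by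
    rw [hΓ₀, Subgroup.map_sup, Subgroup.map_sup, hzmap]
  have hNmap : ∀ (N : Subgroup G), N.Normal → ∀ g ∈ G, ∀ h ∈ N.map φ, g * h * g⁻¹ ∈ N.map φ := by
    rintro N hN g hg h ⟨h', hh', rfl⟩
    exact ⟨⟨g, hg⟩ * h' * ⟨g, hg⟩⁻¹, hN.conj_mem h' hh' _, rfl⟩
  have hNz : ∀ (N : Subgroup G), N.Normal → ∀ g ∈ G, Nz (N.map φ) g := by
    intro N hN g hg m hm
    have := hNmap N hN g⁻¹ (G.inv_mem hg) m hm
    rwa [inv_inv] at this
  have hPG : IsPGroup p ((P : Subgroup G).map φ) := P.isPGroup'.map φ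
  have hQG : IsPGroup q ((Q : Subgroup G).map φ) := Q.isPGroup'.map φ
  have hcrit : Crit (Γ₀.map φ) := by
    rw [hΓ]
    refine crit_oliver p q _ _ z' hPG hQG (hNz _ hPn z' (z : G).2) ?_
    intro s hs
    obtain ⟨s', hs', rfl⟩ := hs
    have h1 : (P : Subgroup G).map φ ⊔ Subgroup.zpowers z' =
        ((P : Subgroup G) ⊔ Subgroup.zpowers (z : G)).map φ := by
      rw [Subgroup.map_sup, hzmap]
    rw [h1]
    exact hNz _ inferInstance _ s'.2
  have hle : Γ₀.map φ ≤ G := by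
    rintro _ ⟨g, _, rfl⟩
    exact g.2
  have hInv : ∀ (N : Subgroup G), N ≤ Γ₀ → ∀ S : Finset (Fin n), Inv (Γ₀.map φ) S →
      Inv (N.map φ) S := by
    intro N hN S hS g hg
    exact hS g (Subgroup.map_mono hN hg)
  have horb : ∀ (N : Subgroup G) (x : Fin n), Nat.card (MulAction.orbit (N.map φ) x) =
      Nat.card (MulAction.orbit N x) := by
    intro N x
    have : (MulAction.orbit (N.map φ) x : Set (Fin n)) = MulAction.orbit N x := by
      ext y
      constructor
      · rintro ⟨⟨_, g, hg, rfl⟩, rfl⟩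
        exact ⟨⟨g, hg⟩, rfl⟩
      · rintro ⟨g, rfl⟩
        exact ⟨⟨_, g.1, g.2, rfl⟩, rfl⟩
    rw [this]
  have hcard : Nat.card (Fin n) = n := by simp
  refine main G (Γ₀.map φ) hle (hNmap Γ₀ hΓn) htr hcrit _ ?_ f hf hne hG hk
  intro S hSne hS
  apply Nat.le_of_dvd (card_pos.2 hSne)
  refine Nat.lcm_dvd (Nat.lcm_dvd ?_ ?_) ?_
  · refine dvd_card_of_inv ((P : Subgroup G).map φ) _ ?_ _ S rfl
      (hInv _ (le_sup_left.trans le_sup_left) S hS)
    intro x
    rw [horb]
    exact sylow_orbit p P a (by rw [hcard]; exact ha) x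
  · refine dvd_card_of_inv ((Q : Subgroup G).map φ) _ ?_ _ S rfl
      (hInv _ le_sup_right S hS)
    intro x
    rw [horb]
    exact sylow_orbit q Q b (by rw [hcard]; exact hb) x
  · refine dvd_card_of_inv (Subgroup.zpowers z') _ ?_ _ S rfl ?_
    · intro x
      rw [semireg G htr z' (fun σ hσ => congrArg Subtype.val (hzc ⟨σ, hσ⟩)) x, ← hz]
      apply dvd_of_eq
      rw [hz', Subgroup.orderOf_coe, Subgroup.orderOf_coe]
    · rw [← hzmap]
      exact hInv _ (le_sup_right.trans le_sup_left) S hS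

theorem rad_dvd (G : Subgroup (Equiv.Perm (Fin n))) (hn : 1 ≤ n)
    (hnil : Group.IsNilpotent G) (htr : ∀ i j : Fin n, ∃ σ ∈ G, σ i = j) :
    ∏ p ∈ n.primeFactors, p ∣ Monoid.exponent (Subgroup.center G) := by
  classical
  have htr' : MulAction.IsPretransitive G (Fin n) := ⟨fun i j => by
    obtain ⟨σ, hσ, h⟩ := htr i j
    exact ⟨⟨σ, hσ⟩, h⟩⟩
  have hnG : n ∣ Nat.card G := by
    have h1 := MulAction.index_stabilizer_of_transitive G (⟨0, hn⟩ : Fin n)
    rw [Nat.card_eq_fintype_card, Fintype.card_fin] at h1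
    have h2 := Subgroup.index_dvd_card (MulAction.stabilizer G (⟨0, hn⟩ : Fin n))
    rwa [h1] at h2
  apply Finset.prod_primes_dvd
  · intro p hp
    exact (Nat.prime_of_mem_primeFactors hp).prime
  · intro p hp
    have : Fact p.Prime := ⟨Nat.prime_of_mem_primeFactors hp⟩
    exact prime_dvd_exponent p ((Nat.dvd_of_mem_primeFactors hp).trans hnG)

end Pool.Agent.TH669.OL
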