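import Pool.Agent.TH669.OL.Crit
import Pool.Agent.TH669.AD.Main

set_option autoImplicit false
set_option linter.unusedSectionVars false

/-!
Normal subgroups of transitive groups: the orbits have the same size.
-/

namespace Pool.Agent.TH669.OL

open Finset
open Pool.Agent.H119R2.Kp (Dec)
open Pool.Agent.TH669.AD (Inv Crit FS FS_dec main)

variable {n : ℕ}

theorem orbit_card_eq (G Γ : Subgroup (Equiv.Perm (Fin n)))
    (hnorm : ∀ g ∈ G, ∀ h ∈ Γ, g * h * g⁻¹ ∈ Γ) (htr : ∀ i j : Fin n, ∃ σ ∈ G, σ i = j)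
    (x y : Fin n) : Nat.card (MulAction.orbit Γ x) = Nat.card (MulAction.orbit Γ y) := by
  obtain ⟨σ, hσ, rfl⟩ := htr x y
  apply Nat.card_congr
  refine ⟨fun z => ⟨σ z.1, ?_⟩, fun z => ⟨σ⁻¹ z.1, ?_⟩, fun z => ?_, fun z => ?_⟩
  · obtain ⟨g, hg⟩ := z.2
    refine ⟨⟨σ * g.1 * σ⁻¹, hnorm σ hσ g.1 g.2⟩, ?_⟩
    have hg' : g.1 x = z.1 := hg
    change (σ * g.1 * σ⁻¹) (σ x) = σ z.1
    rw [← hg']
    simp
  · obtain ⟨g, hg⟩ := z.2
    have h1 := hnorm σ⁻¹ (G.inv_mem hσ) g.1 g.2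
    rw [inv_inv] at h1
    refine ⟨⟨σ⁻¹ * g.1 * σ, h1⟩, ?_⟩
    have hg' : g.1 (σ x) = z.1 := hg
    change (σ⁻¹ * g.1 * σ) x = σ⁻¹ z.1
    rw [← hg']
    simp
  · apply Subtype.ext
    simp
  · apply Subtype.ext
    simp

theorem orbits_mul (Γ : Subgroup (Equiv.Perm (Fin n))) (v : ℕ)
    (hv : ∀ x : Fin n, Nat.card (MulAction.orbit Γ x) = v) :
    n = Nat.card (MulAction.orbitRel.Quotient Γ (Fin n)) * v := by
  classical
  have hfin : Finite (MulAction.orbitRel.Quotient Γ (Fin n)) := Quotient.finite _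
  have := Fintype.ofFinite (MulAction.orbitRel.Quotient Γ (Fin n))
  have e := Nat.card_congr (MulAction.selfEquivSigmaOrbits Γ (Fin n))
  rw [Nat.card_eq_fintype_card, Fintype.card_fin, Nat.card_sigma] at e
  nth_rewrite 1 [e]
  rw [sum_congr rfl (fun ω _ => hv _), sum_const, smul_eq_mul, card_univ,
    Nat.card_eq_fintype_card]

theorem le_card_of_inv (Γ : Subgroup (Equiv.Perm (Fin n))) (x : Fin n) (S : Finset (Fin n))
    (hS : Inv Γ S) (hx : x ∈ S) : Nat.card (MulAction.orbit Γ x) ≤ S.card := by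
  have h1 : ∀ y ∈ MulAction.orbit Γ x, y ∈ S := by
    rintro y ⟨g, rfl⟩
    change g.1 x ∈ S
    rw [← hS g.1 g.2]
    exact mem_map_of_mem _ hx
  have h2 := Nat.card_le_card_of_injective
    (fun y : MulAction.orbit Γ x => (⟨y.1, h1 y.1 y.2⟩ : {y // y ∈ S}))
    (fun a b hab => Subtype.ext (congrArg (fun z : {y // y ∈ S} => z.1) hab))
  rwa [Nat.card_eq_fintype_card (α := {y // y ∈ S}), Fintype.card_coe] at h2

/-- **A transitive group with a normal Oliver subgroup.** -/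
theorem normal_bound {k : ℕ} (G Γ : Subgroup (Equiv.Perm (Fin n))) (hΓG : Γ ≤ G)
    (hnorm : ∀ g ∈ G, ∀ h ∈ Γ, g * h * g⁻¹ ∈ Γ) (htr : ∀ i j : Fin n, ∃ σ ∈ G, σ i = j)
    (hcrit : Crit Γ) (f : (Fin n → Bool) → Bool) (hf : Monotone f) (hne : ∃ x y, f x ≠ f y)
    (hG : ∀ σ ∈ G, ∀ x : Fin n → Bool, f (x ∘ σ) = f x) (hk : Dec k (FS f)) :
    n ^ 2 ≤ Nat.card (MulAction.orbitRel.Quotient Γ (Fin n)) * k ^ 2 := by
  rcases Nat.eq_zero_or_pos n with h0 | h0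
  · subst h0
    simp
  let x0 : Fin n := ⟨0, h0⟩
  set v := Nat.card (MulAction.orbit Γ x0) with hv
  have hv' : ∀ x : Fin n, Nat.card (MulAction.orbit Γ x) = v :=
    fun x => orbit_card_eq G Γ hnorm htr x x0
  have h1 := main G Γ hΓG hnorm htr hcrit v (fun S hS hi => by
    obtain ⟨x, hx⟩ := hS
    rw [← hv' x]
    exact le_card_of_inv Γ x S hi hx) f hf hne hG hk
  have h2 := orbits_mul Γ v hv'
  set r := Nat.card (MulAction.orbitRel.Quotient Γ (Fin n))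
  calc n ^ 2 = n * (r * v) := by rw [← h2]; ring
    _ = r * (n * v) := by ring
    _ ≤ r * k ^ 2 := Nat.mul_le_mul_left _ h1

end Pool.Agent.TH669.OL
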