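import Pool.Agent.TH669.OL.Loc
import Pool.Agent.H98R2.Ev.T8
import Pool.Agent.H119R2.Kp.K1
import Pool.Agent.TH669.AD.Core

set_option autoImplicit false
set_option linter.unusedSectionVars false

/-!
Fixed points of `p`-groups and `q`-groups acting on families of sets.
-/

namespace Pool.Agent.TH669.OL

open Finset
open Pool.Agent.H98R2.Ev (NE Ch fixIn faces act Acyc ne_acyc lefschetz act_apply map_mul_perm
  map_one_perm act_iter chain_fixed)
open Pool.Agent.H119R2.Kp.K1 (eu eu_family alt_ssub)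
open Pool.Agent.TH669.AD (Inv Crit)

variable {n : ℕ}

/-- the permutations which fix the set `S` -/
def stab (S : Finset (Fin n)) : Subgroup (Equiv.Perm (Fin n)) where
  carrier := {g | S.map g.toEmbedding = S}
  one_mem' := map_one_perm S
  mul_mem' := by
    intro a b ha hb
    change S.map (a * b).toEmbedding = S
    rw [map_mul_perm, show S.map b.toEmbedding = S from hb]
    exact ha
  inv_mem' := by
    intro a ha
    change S.map (a⁻¹).toEmbedding = S
    have h : S.map a.toEmbedding = S := ha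
    nth_rewrite 1 [← h]
    rw [← map_mul_perm, inv_mul_cancel, map_one_perm]

theorem mem_stab (S : Finset (Fin n)) (g : Equiv.Perm (Fin n)) :
    g ∈ stab S ↔ S.map g.toEmbedding = S := Iff.rfl

open Classical in
/-- the members of `Q` which are invariant under `M` -/
noncomputable def FixQ (Q : Finset (Finset (Fin n))) (M : Subgroup (Equiv.Perm (Fin n))) :
    Finset (Finset (Fin n)) := Q.filter (fun S => M ≤ stab S)

theorem mem_FixQ (Q : Finset (Finset (Fin n))) (M : Subgroup (Equiv.Perm (Fin n)))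
    (S : Finset (Fin n)) : S ∈ FixQ Q M ↔ S ∈ Q ∧ M ≤ stab S := by
  classical
  unfold FixQ
  rw [mem_filter]

theorem FixQ_sup (Q : Finset (Finset (Fin n))) (M N : Subgroup (Equiv.Perm (Fin n))) :
    FixQ Q (M ⊔ N) = FixQ (FixQ Q M) N := by
  ext S
  rw [mem_FixQ, mem_FixQ, mem_FixQ, sup_le_iff, and_assoc]

theorem FixQ_zpowers (Q : Finset (Finset (Fin n))) (g : Equiv.Perm (Fin n)) :
    FixQ Q (Subgroup.zpowers g) = fixIn Q (act g) := by
  classical
  ext S
  rw [mem_FixQ, Subgroup.zpowers_le, fixIn, mem_filter, mem_stab]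
  rfl

/-- `g` normalizes `M` -/
def Nz (M : Subgroup (Equiv.Perm (Fin n))) (g : Equiv.Perm (Fin n)) : Prop :=
  ∀ m ∈ M, g⁻¹ * m * g ∈ M

theorem FixQ_inv (Q : Finset (Finset (Fin n))) (M : Subgroup (Equiv.Perm (Fin n)))
    (g : Equiv.Perm (Fin n)) (hg : Nz M g) (hQ : ∀ S ∈ Q, S.map g.toEmbedding ∈ Q) :
    ∀ S ∈ FixQ Q M, S.map g.toEmbedding ∈ FixQ Q M := by
  intro S hS
  rw [mem_FixQ] at hS ⊢
  refine ⟨hQ S hS.1, ?_⟩
  intro m hm
  rw [mem_stab, ← map_mul_perm]
  have h1 : S.map (g⁻¹ * m * g).toEmbedding = S := hS.2 (hg m hm)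
  have h2 : m * g = g * (g⁻¹ * m * g) := by group
  rw [h2, map_mul_perm, h1]

/-- one step up in a `p`-group -/
theorem step_up (p : ℕ) [Fact p.Prime] (P M : Subgroup (Equiv.Perm (Fin n)))
    (hP : IsPGroup p P) (hMP : M ≤ P) (hne : M ≠ P) :
    ∃ g ∈ P, g ∉ M ∧ g ^ p ∈ M ∧ Nz M g := by
  classical
  have hnil : Group.IsNilpotent P := hP.isNilpotent
  have hlt : M.subgroupOf P < ⊤ := by
    rw [lt_top_iff_ne_top]
    intro h
    rw [Subgroup.subgroupOf_eq_top] at h
    exact hne (le_antisymm hMP h)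
  have hnorm := Group.normalizerCondition_of_isNilpotent (G := P) (M.subgroupOf P) hlt
  obtain ⟨x, hx1, hx2⟩ := SetLike.exists_of_lt hnorm
  obtain ⟨j, hj⟩ := hP x
  have hex : ∃ i, x ^ (p ^ i) ∈ M.subgroupOf P := ⟨j, by rw [hj]; exact one_mem _⟩
  obtain ⟨i, hi1, hi2⟩ : ∃ i, x ^ (p ^ i) ∉ M.subgroupOf P ∧ x ^ (p ^ (i + 1)) ∈ M.subgroupOf P := by
    have h0 : Nat.find hex ≠ 0 := by
      intro h
      have := Nat.find_spec hex
      rw [h, pow_zero, pow_one] at this
      exact hx2 this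
    obtain ⟨i, hi⟩ := Nat.exists_eq_succ_of_ne_zero h0
    refine ⟨i, Nat.find_min hex (by rw [hi]; exact Nat.lt_succ_self i), ?_⟩
    have := Nat.find_spec hex
    rwa [hi] at this
  refine ⟨((x ^ (p ^ i) : P) : Equiv.Perm (Fin n)), (x ^ (p ^ i)).2, ?_, ?_, ?_⟩
  · intro h
    exact hi1 (Subgroup.mem_subgroupOf.2 h)
  · have := Subgroup.mem_subgroupOf.1 hi2
    rw [pow_succ, pow_mul] at this
    exact this
  · intro m hm
    have hy : x ^ (p ^ i) ∈ Subgroup.normalizer (M.subgroupOf P : Subgroup P) :=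
      Subgroup.pow_mem _ hx1 _
    rw [Subgroup.mem_normalizer_iff''] at hy
    have h1 := (hy ⟨m, hMP hm⟩).1 (Subgroup.mem_subgroupOf.2 hm)
    exact Subgroup.mem_subgroupOf.1 h1

theorem psmith (p : ℕ) [Fact p.Prime] (P : Subgroup (Equiv.Perm (Fin n))) (hP : IsPGroup p P)
    (Q : Finset (Finset (Fin n))) (hQ : Acyc (ZMod p) Q)
    (hQP : ∀ g ∈ P, ∀ S ∈ Q, S.map g.toEmbedding ∈ Q) : Acyc (ZMod p) (FixQ Q P) := by
  classical
  have key : ∀ k : ℕ, ∀ M : Subgroup (Equiv.Perm (Fin n)), M ≤ P → Acyc (ZMod p) (FixQ Q M) →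
      Nat.card P ≤ Nat.card M + k → Acyc (ZMod p) (FixQ Q P) := by
    intro k
    induction k with
    | zero =>
      intro M hM hA hc
      have : M = P := Subgroup.eq_of_le_of_card_ge hM (by simpa using hc)
      rwa [← this]
    | succ k ih =>
      intro M hM hA hc
      by_cases hne : M = P
      · rwa [← hne]
      obtain ⟨g, hg1, hg2, hg3, hg4⟩ := step_up p P M hP hM hne
      have hle : M ⊔ Subgroup.zpowers g ≤ P := sup_le hM (by rwa [Subgroup.zpowers_le])
      refine ih (M ⊔ Subgroup.zpowers g) hle ?_ ?_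
      · rw [FixQ_sup, FixQ_zpowers]
        refine smith_local p _ hA (act g) (FixQ_inv Q M g hg4 (hQP g hg1)) ?_
        intro S hS
        rw [act_iter]
        exact ((mem_FixQ Q M S).1 hS).2 hg3
      · have hlt : M < M ⊔ Subgroup.zpowers g := by
          refine lt_of_le_of_ne le_sup_left ?_
          intro h
          apply hg2
          rw [h]
          exact (le_sup_right : Subgroup.zpowers g ≤ M ⊔ Subgroup.zpowers g)
            (Subgroup.mem_zpowers g)
        have h2 : Nat.card M < Nat.card (M ⊔ Subgroup.zpowers g : Subgroup _) := by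
          by_contra hge
          rw [not_lt] at hge
          exact hlt.ne (Subgroup.eq_of_le_of_card_ge hlt.le hge)
        omega
  refine key (Nat.card P) ⊥ bot_le ?_ (Nat.le_add_left _ _)
  have : FixQ Q ⊥ = Q := by
    ext S
    rw [mem_FixQ]
    exact ⟨fun h => h.1, fun h => ⟨h, bot_le⟩⟩
  rwa [this]

/-- counting fixed chains modulo `q` -/
theorem qcount_aux (q : ℕ) [Fact q.Prime] (S : Subgroup (Equiv.Perm (Fin n)))
    (hS : IsPGroup q S) (R : Finset (Finset (Fin n)) → Prop)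
    (hR : ∀ g ∈ S, ∀ σ, R σ → R (σ.map (act g).toEmbedding)) :
    Nat.card {σ : Finset (Finset (Fin n)) // R σ} ≡
      Nat.card {σ : Finset (Finset (Fin n)) // R σ ∧ ∀ g ∈ S, σ.map (act g).toEmbedding = σ}
        [MOD q] := by
  classical
  have hmm : ∀ (g h : Equiv.Perm (Fin n)) (σ : Finset (Finset (Fin n))),
      (σ.map (act h).toEmbedding).map (act g).toEmbedding = σ.map (act (g * h)).toEmbedding := by
    intro g h σ
    rw [Finset.map_map]
    congr 1
    ext1 A
    exact (map_mul_perm g h A).symm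
  let _act : MulAction S {σ : Finset (Finset (Fin n)) // R σ} :=
    { smul := fun g σ => ⟨σ.1.map (act (g : Equiv.Perm (Fin n))).toEmbedding, hR g.1 g.2 σ.1 σ.2⟩
      one_smul := by
        intro σ
        apply Subtype.ext
        change σ.1.map (act (1 : Equiv.Perm (Fin n))).toEmbedding = σ.1
        have : (act (1 : Equiv.Perm (Fin n))).toEmbedding = Function.Embedding.refl _ := by
          ext1 A
          exact map_one_perm A
        rw [this, Finset.map_refl]
      mul_smul := by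
        intro g h σ
        apply Subtype.ext
        exact (hmm g.1 h.1 σ.1).symm }
  have h1 := hS.card_modEq_card_fixedPoints {σ : Finset (Finset (Fin n)) // R σ}
  refine h1.trans ?_
  have e : MulAction.fixedPoints S {σ : Finset (Finset (Fin n)) // R σ} ≃
      {σ : Finset (Finset (Fin n)) // R σ ∧ ∀ g ∈ S, σ.map (act g).toEmbedding = σ} :=
    { toFun := fun y => ⟨y.1.1, y.1.2, fun g hg => congrArg Subtype.val (y.2 ⟨g, hg⟩)⟩
      invFun := fun z => ⟨⟨z.1, z.2.1⟩, fun g => Subtype.ext (z.2.2 g.1 g.2)⟩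
      left_inv := fun y => rfl
      right_inv := fun z => rfl }
  rw [Nat.card_congr e]

theorem sum_split (P : Finset (Finset (Fin n)) → Prop) [DecidablePred P] :
    (∑ σ ∈ univ.filter (fun σ : Finset (Finset (Fin n)) => P σ), (-1 : ℤ) ^ σ.card) =
      (Nat.card {σ : Finset (Finset (Fin n)) // P σ ∧ Even σ.card} : ℤ) -
      Nat.card {σ : Finset (Finset (Fin n)) // P σ ∧ ¬ Even σ.card} := by
  classical
  rw [Nat.card_eq_fintype_card, Nat.card_eq_fintype_card, Fintype.card_subtype,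
    Fintype.card_subtype]
  rw [← Finset.sum_filter_add_sum_filter_not _ (fun σ : Finset (Finset (Fin n)) => Even σ.card)]
  rw [filter_filter, filter_filter]
  have h1 : ∑ σ ∈ univ.filter (fun σ : Finset (Finset (Fin n)) => P σ ∧ Even σ.card),
      (-1 : ℤ) ^ σ.card = ((univ.filter (fun σ : Finset (Finset (Fin n)) =>
        P σ ∧ Even σ.card)).card : ℤ) := by
    rw [card_eq_sum_ones]
    push_cast
    refine sum_congr rfl fun σ hσ => ?_
    exact (mem_filter.1 hσ).2.2.neg_one_pow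
  have h2 : ∑ σ ∈ univ.filter (fun σ : Finset (Finset (Fin n)) => P σ ∧ ¬ Even σ.card),
      (-1 : ℤ) ^ σ.card = -((univ.filter (fun σ : Finset (Finset (Fin n)) =>
        P σ ∧ ¬ Even σ.card)).card : ℤ) := by
    rw [card_eq_sum_ones]
    push_cast
    rw [← sum_neg_distrib]
    refine sum_congr rfl fun σ hσ => ?_
    rw [(Nat.not_even_iff_odd.1 (mem_filter.1 hσ).2.2).neg_one_pow]
  rw [h1, h2]
  ring

theorem ch_act (Q : Finset (Finset (Fin n))) (g : Equiv.Perm (Fin n))
    (hQ : ∀ A ∈ Q, A.map g.toEmbedding ∈ Q) (σ : Finset (Finset (Fin n))) (h : Ch Q σ) :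
    Ch Q (σ.map (act g).toEmbedding) := by
  constructor
  · intro A hA
    obtain ⟨B, hB, rfl⟩ := mem_map.1 hA
    exact hQ B (h.1 hB)
  · intro A hA B hB hAB
    obtain ⟨A', hA', rfl⟩ := mem_map.1 (mem_coe.1 hA)
    obtain ⟨B', hB', rfl⟩ := mem_map.1 (mem_coe.1 hB)
    have := h.2 (mem_coe.2 hA') (mem_coe.2 hB') (fun h => hAB (congrArg _ h))
    exact this.imp (act g).le_iff_le.2 (act g).le_iff_le.2

/-- the Euler characteristic of the fixed family of a `q`-group -/
theorem qcount (q : ℕ) [Fact q.Prime] (S : Subgroup (Equiv.Perm (Fin n)))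
    (hS : IsPGroup q S) (Q : Finset (Finset (Fin n)))
    (hQ : ∀ g ∈ S, ∀ A ∈ Q, A.map g.toEmbedding ∈ Q) :
    (q : ℤ) ∣ eu Q - eu (FixQ Q S) := by
  classical
  have hfix : ∀ σ, (Ch Q σ ∧ ∀ g ∈ S, σ.map (act g).toEmbedding = σ) ↔ Ch (FixQ Q S) σ := by
    intro σ
    constructor
    · rintro ⟨h1, h2⟩
      refine ⟨?_, h1.2⟩
      intro A hA
      rw [mem_FixQ]
      refine ⟨h1.1 hA, ?_⟩
      intro g hg
      exact chain_fixed (act g) σ h1.2 (h2 g hg) A hA
    · intro h
      refine ⟨⟨fun A hA => ((mem_FixQ Q S A).1 (h.1 hA)).1, h.2⟩, ?_⟩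
      intro g hg
      have h3 : ∀ A ∈ σ, act g A = A := fun A hA => ((mem_FixQ Q S A).1 (h.1 hA)).2 hg
      ext A
      rw [mem_map]
      constructor
      · rintro ⟨B, hB, rfl⟩
        change act g B ∈ σ
        rw [h3 B hB]
        exact hB
      · intro hA
        exact ⟨A, hA, h3 A hA⟩
  have hcard : ∀ (g : Equiv.Perm (Fin n)) (σ : Finset (Finset (Fin n))),
      (σ.map (act g).toEmbedding).card = σ.card := fun g σ => card_map _
  have e1 := qcount_aux q S hS (fun σ => Ch Q σ ∧ Even σ.card) (by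
    rintro g hg σ ⟨h1, h2⟩
    exact ⟨ch_act Q g (hQ g hg) σ h1, by rwa [hcard]⟩)
  have e2 := qcount_aux q S hS (fun σ => Ch Q σ ∧ ¬ Even σ.card) (by
    rintro g hg σ ⟨h1, h2⟩
    exact ⟨ch_act Q g (hQ g hg) σ h1, by rwa [hcard]⟩)
  have c1 : Nat.card {σ : Finset (Finset (Fin n)) // (Ch Q σ ∧ Even σ.card) ∧
      ∀ g ∈ S, σ.map (act g).toEmbedding = σ} =
      Nat.card {σ : Finset (Finset (Fin n)) // Ch (FixQ Q S) σ ∧ Even σ.card} := by
    apply Nat.card_congr
    apply Equiv.subtypeEquivRight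
    intro σ
    rw [← hfix]
    tauto
  have c2 : Nat.card {σ : Finset (Finset (Fin n)) // (Ch Q σ ∧ ¬ Even σ.card) ∧
      ∀ g ∈ S, σ.map (act g).toEmbedding = σ} =
      Nat.card {σ : Finset (Finset (Fin n)) // Ch (FixQ Q S) σ ∧ ¬ Even σ.card} := by
    apply Nat.card_congr
    apply Equiv.subtypeEquivRight
    intro σ
    rw [← hfix]
    tauto
  rw [c1] at e1
  rw [c2] at e2
  unfold eu
  rw [sum_split, sum_split]
  have d1 := (Nat.modEq_iff_dvd.1 e1)
  have d2 := (Nat.modEq_iff_dvd.1 e2)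
  have h3 := dvd_sub d2 d1
  refine (dvd_sub d2 d1).trans (dvd_of_eq ?_)
  ring

end Pool.Agent.TH669.OL
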